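import Pool.Graph.R_pool_sql_team_seeded_b0a926ef.R431.W.Defs
import Pool.Graph.R_seed8.Y696.CTK.Stm

/-!
# Statements: the abelian surfaces `Res_{ℚ(ω)/ℚ} E_D`, `E_D : y² + D y = x³`

`K = ℚ(ω)`, `A_D = Res_{K/ℚ} E_D`, a principally polarized abelian surface over `ℚ`. The points of
`A_D` over an algebraic closure of `ℚ`, with the action of the Galois group, `Ш(A_D/ℚ)`, defined by
cocycles that are trivial at all the `ℚ_p` and at `ℝ`, and the Euler factors are in
`Pool.Agent.R431.W.Defs`. The volumes: the Néron model of `A_D` is the restriction of scalars of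
that of `E_D`, so that `ω` takes the values `1`, `-1` on a basis of the lattice `𝓞_K` of tangent
vectors, in units dual to the Néron differential of `E_D`, and
`V_∞ = ∫_{A_D(ℝ)} |ω| = ∫_{ℂ/Λ} (2 / √|disc K|) dx dy` for the period lattice `Λ` of `E_D`; the
Tamagawa number `c_p` of `A_D` is the product of the Tamagawa numbers `c_v` of `E_D` for `v ∣ p`.
The `L`-function has its Euler factors at all the primes, so that the factor of `V_bad` at `p`,
`c_p #𝒜⁰(𝔽_p) / p² = c_p P_p(1 / p)`, is replaced by `c_p`.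
-/

set_option autoImplicit false

open scoped Classical

namespace Pool.Agent.Helper68.C4

open NumberField IsDedekindDomain
open Pool.Agent.Y696.CTK (ED IsTam)
open Pool.Agent.R431.W (ptsA ShaTrivial euler)

section
variable {K : Type} [Field K] [NumberField K]

/-- `D` is squarefree and congruent modulo `3` to a cube root of unity `ζ`; if `ζ = 1` then the norm
of `D` is not `1` modulo `9` -/
def Fam (D : 𝓞 K) : Prop :=
  Squarefree D ∧ ∃ ζ : 𝓞 K, ζ ^ 3 = 1 ∧ (3 : 𝓞 K) ∣ D - ζ ∧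
    (ζ = 1 → ¬ (9 : ℤ) ∣ Algebra.norm ℤ D - 1)

/-- `Λ` is the lattice of periods of the differential `dx / (2y + a₁x + a₃)` of the curve `E`, embedded
in the complex numbers by `σ`. -/
def IsPeriodLattice (E : WeierstrassCurve K) (σ : K →+* ℂ) (Λ : PeriodPair) : Prop :=
  Λ.g₂ = σ E.c₄ / 12 ∧ Λ.g₃ = σ E.c₆ / 216

/-- `V_∞ = ∫_{A(ℝ)} |ω|` for `A = Res_{K/ℚ} E`, `K` imaginary quadratic: the area of a fundamental
parallelogram of the period lattice of `E` times `2 / √|disc K|`. -/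
noncomputable def Vinf (K : Type) [Field K] [NumberField K] (Λ : PeriodPair) : ℝ :=
  2 * |((starRingEnd ℂ) Λ.ω₁ * Λ.ω₂).im| / Real.sqrt |(discr K : ℝ)|

/-- The Birch and Swinnerton-Dyer conjecture for the abelian surface `A = Res_{K/ℚ} E`, `K` imaginary
quadratic, with `A(ℚ)` finite, the `3`-part of its order being `3`, and `Ш(A/ℚ)[3^∞] = 0`, the
formula up to units at the valuations above `3`: `L(A, s)` is entire, `L(A, 1) ≠ 0`, and
`L(A, 1) #A(ℚ)² / (V_∞ ∏ c_v)` is a unit at every valuation `v` of the field of complex numbers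
with `v 3 < 1`. -/
def ThreePart (E : WeierstrassCurve K) : Prop :=
  (ptsA E).Finite ∧ padicValNat 3 (Nat.card (ptsA E)) = 1 ∧ ShaTrivial E 3 ∧
  ∃ (L : ℂ → ℂ) (c : HeightOneSpectrum (𝓞 K) → ℕ),
    Differentiable ℂ L ∧
    (∀ s : ℂ, 3 / 2 < s.re → HasProd (fun p : Nat.Primes => euler E s p) (L s)) ∧
    L 1 ≠ 0 ∧
    IsTam E c ∧
    ∀ σ : K →+* ℂ, (∃ Λ : PeriodPair, IsPeriodLattice E σ Λ) ∧
      ∀ Λ : PeriodPair, IsPeriodLattice E σ Λ →
        ∀ (Γ : Type) [LinearOrderedCommGroupWithZero Γ] (v : Valuation ℂ Γ), v 3 < 1 →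
          v (L 1 * (Nat.card (ptsA E) : ℂ) ^ 2 /
            ((Vinf K Λ : ℂ) * ((∏ᶠ w, c w : ℕ) : ℂ))) = 1

end

end Pool.Agent.Helper68.C4
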