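import Pool.Agent.Helper68.C3.Fin3
import Pool.Agent.Helper68.C4.SStm
import Pool.Graph.R_pool_sql_team_seeded_b0a926ef.R431.W.Loc
import Pool.Graph.R_pool_sql_team_seeded_b0a926ef.R431.W.Pts
import Pool.Graph.R_pool_sql_team_seeded_b0a926ef.R431.W.Lf
import Pool.Graph.R_seed8.Y696.XL.XKFin
import Pool.Graph.R_seed8.Y696.CTK.Fin

/-!
# The abelian surfaces: assembly
-/

set_option autoImplicit false
set_option linter.unusedVariables false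
set_option linter.unusedSectionVars false

open scoped Classical

namespace Pool.Agent.Helper68.C4.Surf

open NumberField IsDedekindDomain WeierstrassCurve WithZero
open Finset Filter
open Pool.Agent.Y692.QS (Ei w nr)
open Pool.Agent.Y715.T.Rec (cs)
open Pool.Agent.Y715.T.RecG (Pq)
open Pool.Agent.Y699.E (nrm eq_of_dvd)
open Pool.Agent.Y703.CT
open Pool.Agent.Y703.XL (cr)
open Pool.Agent.Y696.CTK
open Pool.Agent.Y696 (HBd)
open Pool.Agent.W189.NF (aV eV)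
open Pool.Agent.H921R2.TatePole (nm)
open Pool.Agent.Helper68.C2 (pD2 KerW ClsW)
open Pool.Agent.Helper68.C3
open Pool.Agent.Helper68.C3.NS3
open Pool.Agent.Helper68.C3.Fin3
open Pool.Agent.R431.W (ptsA ShaTrivial euler globE sha_iff)

section
variable {K : Type} [Field K] [NumberField K] (j : Ei ≃+* 𝓞 K)

/-- the Hasse bounds -/
def HB (D : 𝓞 K) : Prop := ∀ v : HeightOneSpectrum (𝓞 K), HBd (aV (ED (D : K)) v)
  (eV (ED (D : K)) v) (nm v)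

lemma hb2 {J : Type} [Fintype J] {π : J → Ei} {e : J → ZMod 3} {κ : ZMod 3} (hdt : Dt π e) :
    HB (j (pD2 π e κ)) := by
  intro v
  obtain ⟨P, rfl⟩ := (Pool.Agent.Y696.CTK.eK j).surjective v
  exact (Pool.Agent.Helper68.C2.LK2.factorK j Pool.Agent.Y350.CT.rec hdt 2 P).1

lemma hb1 {J : Type} [Fintype J] {π : J → Ei} (hdt : Dt π (fun _ => 1)) :
    HB (j (pD π (fun _ => 1))) := by
  intro v
  obtain ⟨P, rfl⟩ := (Pool.Agent.Y696.CTK.eK j).surjective v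
  exact (Pool.Agent.Y696.CTK.factorK j Pool.Agent.Y350.CT.rec hdt 2 P).1

/-- the library's class, by the residues modulo three -/
lemma clsK_iff (hj : ∀ z : Ei, Algebra.norm ℤ (j z) = nr z) (D : Ei) :
    ClsK (j D) ↔ ((3 : Ei) ∣ D - 1 ∧ Squarefree D) ∧ ¬ (9 : ℤ) ∣ nr D - 1 := by
  have e1 : (3 : 𝓞 K) ∣ j D - 1 ↔ (3 : Ei) ∣ D - 1 := by
    have : j D - 1 = j (D - 1) := by rw [map_sub, map_one]
    rw [this, ← map_ofNat j 3, map_dvd_iff j]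
  have e2 : Squarefree (j D) ↔ Squarefree D := by
    constructor
    · intro h x hx
      have h1 := h (j x) (by rw [← map_mul]; exact map_dvd j hx)
      exact (MulEquiv.isUnit_map j).1 h1
    · intro h x hx
      obtain ⟨y, rfl⟩ := j.surjective x
      rw [← map_mul, map_dvd_iff j] at hx
      exact (h y hx).map j
  unfold ClsK
  rw [e1, e2, hj]
  exact ⟨fun h => ⟨⟨h.1, h.2.1⟩, h.2.2⟩, fun h => ⟨h.1.1, h.1.2, h.2⟩⟩

lemma root_of {ζ : 𝓞 K} (h : ζ ^ 3 = 1) (h1 : ζ ≠ 1) : ζ ^ 2 + ζ + 1 = 0 := by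
  have h2 : (ζ - 1) * (ζ ^ 2 + ζ + 1) = 0 := by linear_combination h
  rcases mul_eq_zero.1 h2 with h3 | h3
  · exact absurd (sub_eq_zero.1 h3) h1
  · exact h3

lemma fam_iff (D : 𝓞 K) : Fam D ↔ ClsQ D ∨ ClsK D := by
  constructor
  · rintro ⟨h1, ζ, h2, h3, h4⟩
    by_cases h5 : ζ = 1
    · right
      rw [h5] at h3
      exact ⟨h3, h1, h4 h5⟩
    · left
      exact ⟨⟨ζ, root_of h2 h5, h3⟩, h1⟩
  · rintro (⟨⟨ω, h1, h2⟩, h3⟩ | ⟨h1, h2, h3⟩)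
    · refine ⟨h3, ω, by linear_combination (ω - 1) * h1, h2, fun h4 => ?_⟩
      exfalso
      rw [h4] at h1
      have : (3 : 𝓞 K) = 0 := by linear_combination h1
      norm_num at this
    · exact ⟨h2, 1, one_pow 3, h1, fun _ => h3⟩

include j in
lemma not_both (D : 𝓞 K) (h1 : ClsQ D) (h2 : ClsK D) : False := by
  obtain ⟨D, rfl⟩ := j.surjective D
  obtain ⟨κ, hκ, h3, -⟩ := (cls_iff j D).1 h1
  have h4 : (3 : Ei) ∣ D - 1 := by
    have h5 := h2.1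
    have : j D - 1 = j (D - 1) := by rw [map_sub, map_one]
    rwa [this, ← map_ofNat j 3, map_dvd_iff j] at h5
  have h6 : (3 : Ei) ∣ w ^ κ.val - 1 := by
    have := dvd_sub h4 h3
    have e : D - 1 - (D - w ^ κ.val) = w ^ κ.val - 1 := by ring
    rwa [e] at this
  obtain ⟨c, hc⟩ := h6
  have h5 := congrArg QuadraticAlgebra.im hc
  have h7 := congrArg QuadraticAlgebra.re hc
  have e3 : ((3 : Ei) * c).im = 3 * c.im := by
    have e2 : (3 : Ei).re = 3 := rfl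
    have e3 : (3 : Ei).im = 0 := rfl
    rw [Pool.Agent.Y692.QS.mul_im, e2, e3]
    ring
  rw [e3] at h5
  have e4 : (w ^ κ.val - 1 : Ei).im = 1 ∨ (w ^ κ.val - 1 : Ei).im = -1 := by
    clear h3 hc h5 h7
    revert κ
    decide
  rcases e4 with e4 | e4
  · rw [e4] at h5
    omega
  · rw [e4] at h5
    omega

/-- the criterion for the library's class -/
lemma tri_gd {S : Finset Ei} (hS : ∀ π ∈ S, Pq π) (h9 : (∏ π ∈ S, nrm π) % 9 ≠ 1) :
    Tri (j (∏ π ∈ S, π)) ↔ Pool.Agent.Y703.XK.Gd S := by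
  have hne : S.Nonempty := by
    rw [Finset.nonempty_iff_ne_empty]
    rintro rfl
    exact h9 (by rw [Finset.prod_empty]; rfl)
  have hn : Nonempty S := hne.to_subtype
  have hp : pD (fun p : S => (p : Ei)) (fun _ => (1 : ZMod 3)) = ∏ π ∈ S, π := by
    unfold pD
    rw [← Finset.prod_coe_sort S (fun π => π)]
    refine Finset.prod_congr rfl fun p _ => ?_
    have : (1 : ZMod 3).val = 1 := rfl
    rw [this, pow_one]
  have h9' : ¬ (9 : ℤ) ∣ nr (pD (fun p : S => (p : Ei)) (fun _ => (1 : ZMod 3))) - 1 := by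
    rw [hp, Pool.Agent.Y550.XK.NS.mod_iff, Pool.Agent.Y550.XK.NS.nrm_prod]
    exact h9
  rw [← hp, Pool.Agent.Y696.CTK.tri_iff j Pool.Agent.Y696.CTK.parts (dt_of hS) h9']
  unfold Ker Pool.Agent.Y703.XK.Gd Pool.Agent.Y703.XK.Sol
  constructor
  · intro h v hv π hπ ρ hρ
    refine h (fun p : S => v p) (fun q => ?_) ⟨π, hπ⟩ ⟨ρ, hρ⟩
    have h1 := hv q q.2
    rw [← Finset.sum_coe_sort S (fun ρ => cs q ρ * (v ρ - v q))] at h1
    simpa only [one_mul] using h1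
  · intro h v hv π ρ
    have h1 := h (fun x => if hx : x ∈ S then v ⟨x, hx⟩ else 0) (fun q hq => ?_) π π.2 ρ ρ.2
    · simpa using h1
    · rw [← Finset.sum_coe_sort S]
      have h2 := hv ⟨q, hq⟩
      simp only [one_mul] at h2
      rw [← h2]
      refine Finset.sum_congr rfl fun x _ => ?_
      simp [hq]

lemma mem_a (X : ℕ) (S : Finset Ei) : S ∈ SS X ↔ S ∈ (Pool.Agent.Y699.E.QB X).powerset ∧
    (∀ π ∈ S, Pq π) ∧ ∏ π ∈ S, nrm π ≤ X := by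
  unfold SS
  rw [Finset.mem_filter]
  rfl

lemma mem_b (X : ℕ) (S : Finset Ei) : S ∈ Pool.Agent.Y703.XK.SS X ↔
    S ∈ (Pool.Agent.Y699.E.QB X).powerset ∧
    ((∀ π ∈ S, Pq π) ∧ (∏ π ∈ S, nrm π) % 9 ≠ 1) ∧ ∏ π ∈ S, nrm π ≤ X := by
  unfold Pool.Agent.Y703.XK.SS
  rw [Finset.mem_filter]
  rfl

lemma countK (hj : ∀ z : Ei, Algebra.norm ℤ (j z) = nr z) (X : ℕ) (Q : 𝓞 K → Prop) :
    {D : 𝓞 K | Algebra.norm ℤ D ≤ X ∧ ClsK D ∧ Q D}.ncard =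
      ((Pool.Agent.Y703.XK.SS X).filter fun S => Q (j (∏ π ∈ S, π))).card := by
  have h1 : {D : 𝓞 K | Algebra.norm ℤ D ≤ X ∧ ClsK D ∧ Q D} =
      j '' {D : Ei | nr D ≤ X ∧ ((3 : Ei) ∣ D - w ^ (0 : ZMod 3).val ∧ Squarefree D) ∧
        (¬ (9 : ℤ) ∣ nr D - 1 ∧ Q (j D))} := by
    ext D
    obtain ⟨z, rfl⟩ := j.surjective D
    have e : j z ∈ (j '' {D : Ei | nr D ≤ X ∧ ((3 : Ei) ∣ D - w ^ (0 : ZMod 3).val ∧
        Squarefree D) ∧ (¬ (9 : ℤ) ∣ nr D - 1 ∧ Q (j D))}) ↔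
        z ∈ {D : Ei | nr D ≤ X ∧ ((3 : Ei) ∣ D - w ^ (0 : ZMod 3).val ∧ Squarefree D) ∧
        (¬ (9 : ℤ) ∣ nr D - 1 ∧ Q (j D))} :=
      j.injective.mem_set_image
    rw [e]
    show Algebra.norm ℤ (j z) ≤ X ∧ ClsK (j z) ∧ Q (j z) ↔ _
    rw [hj, clsK_iff j hj]
    have e0 : (w : Ei) ^ (0 : ZMod 3).val = 1 := by decide
    show _ ↔ _ ∧ (3 ∣ z - w ^ (0 : ZMod 3).val ∧ _) ∧ _ ∧ _
    rw [e0]
    tauto
  have e0 : (w : Ei) ^ (0 : ZMod 3).val = 1 := by decide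
  rw [h1, Set.ncard_image_of_injective _ j.injective,
    card_eq X 0 (fun D => ¬ (9 : ℤ) ∣ nr D - 1 ∧ Q (j D))]
  congr 1
  ext S
  simp only [Finset.mem_filter, e0, one_mul]
  rw [mem_a, mem_b, Pool.Agent.Y550.XK.NS.mod_iff, Pool.Agent.Y550.XK.NS.nrm_prod]
  tauto

lemma fin_fam (X : ℕ) (hj : ∀ z : Ei, Algebra.norm ℤ (j z) = nr z) :
    {D : 𝓞 K | Algebra.norm ℤ D ≤ X}.Finite := by
  have h1 : {D : 𝓞 K | Algebra.norm ℤ D ≤ X} = j '' {D : Ei | nr D ≤ X} := by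
    ext D
    obtain ⟨z, rfl⟩ := j.surjective D
    have e : j z ∈ (j '' {D : Ei | nr D ≤ X}) ↔ z ∈ {D : Ei | nr D ≤ X} :=
      j.injective.mem_set_image
    rw [e]
    show Algebra.norm ℤ (j z) ≤ X ↔ _
    rw [hj]
    rfl
  rw [h1]
  exact (fin_nr X).image _

lemma countF (hj : ∀ z : Ei, Algebra.norm ℤ (j z) = nr z) (X : ℕ) (Q : 𝓞 K → Prop) :
    {D : 𝓞 K | Algebra.norm ℤ D ≤ X ∧ Fam D ∧ Q D}.ncard =
      {D : 𝓞 K | Algebra.norm ℤ D ≤ X ∧ ClsQ D ∧ Q D}.ncard +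
      {D : 𝓞 K | Algebra.norm ℤ D ≤ X ∧ ClsK D ∧ Q D}.ncard := by
  rw [← Set.ncard_union_eq ?_ ((fin_fam j X hj).subset fun D h => h.1)
    ((fin_fam j X hj).subset fun D h => h.1)]
  · congr 1
    ext D
    show _ ∧ Fam D ∧ _ ↔ (_ ∧ _ ∧ _) ∨ (_ ∧ _ ∧ _)
    rw [fam_iff]
    tauto
  · rw [Set.disjoint_left]
    rintro D ⟨-, h1, -⟩ ⟨-, h2, -⟩
    exact not_both j D h1 h2

end

/-- two sequences of proportions with the same limit -/
lemma mix {G₁ T₁ G₂ T₂ : ℕ → ℕ} {c : ℝ} (hG₁ : ∀ X, G₁ X ≤ T₁ X) (hG₂ : ∀ X, G₂ X ≤ T₂ X)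
    (h₁ : Tendsto (fun X => (G₁ X : ℝ) / T₁ X) atTop (nhds c))
    (h₂ : Tendsto (fun X => (G₂ X : ℝ) / T₂ X) atTop (nhds c))
    (hT : ∀ᶠ X in atTop, 0 < T₁ X) :
    Tendsto (fun X => ((G₁ X + G₂ X : ℕ) : ℝ) / ((T₁ X + T₂ X : ℕ) : ℝ)) atTop (nhds c) := by
  rw [Metric.tendsto_nhds] at *
  intro ε hε
  filter_upwards [h₁ ε hε, h₂ ε hε, hT] with X a1 a2 a3
  rw [Real.dist_eq] at *
  have key : ∀ g t : ℕ, g ≤ t → |(g : ℝ) / t - c| < ε → |(g : ℝ) - c * t| ≤ ε * t ∧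
      (0 < t → |(g : ℝ) - c * t| < ε * t) := by
    intro g t hgt h
    rcases Nat.eq_zero_or_pos t with h0 | h0
    · subst h0
      have : g = 0 := by omega
      subst this
      simp
    · have ht : (0 : ℝ) < t := by exact_mod_cast h0
      have e : (g : ℝ) - c * t = ((g : ℝ) / t - c) * t := by
        field_simp
      rw [e, abs_mul, abs_of_pos ht]
      exact ⟨(mul_lt_mul_of_pos_right h ht).le, fun _ => mul_lt_mul_of_pos_right h ht⟩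
  have b1 := (key _ _ (hG₁ X) a1).2 a3
  have b2 := (key _ _ (hG₂ X) a2).1
  have hpos : (0 : ℝ) < ((T₁ X + T₂ X : ℕ) : ℝ) := by
    exact_mod_cast Nat.add_pos_left a3 _
  have e : ((G₁ X + G₂ X : ℕ) : ℝ) / ((T₁ X + T₂ X : ℕ) : ℝ) - c =
      (((G₁ X : ℝ) - c * T₁ X) + ((G₂ X : ℝ) - c * T₂ X)) / ((T₁ X + T₂ X : ℕ) : ℝ) := by
    rw [eq_div_iff hpos.ne', sub_mul, div_mul_cancel₀ _ hpos.ne']
    push_cast
    ring
  rw [e, abs_div, abs_of_pos hpos, div_lt_iff₀ hpos]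
  have b3 := abs_add_le ((G₁ X : ℝ) - c * T₁ X) ((G₂ X : ℝ) - c * T₂ X)
  push_cast
  linarith

end Pool.Agent.Helper68.C4.Surf
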