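import Pool.Agent.Helper68.C4.Surf

/-!
# The abelian surfaces: the final statement
-/

set_option autoImplicit false
set_option linter.unusedVariables false
set_option linter.unusedSectionVars false

open scoped Classical

namespace Pool.Agent.Helper68.C4.Surf2

open NumberField IsDedekindDomain WeierstrassCurve WithZero
open Finset Filter
open Pool.Agent.Y692.QS (Ei w nr)
open Pool.Agent.Y715.T.RecG (Pq)
open Pool.Agent.Y699.E (nrm)
open Pool.Agent.Y703.CT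
open Pool.Agent.Y703.XL (cr)
open Pool.Agent.Y696.CTK
open Pool.Agent.Helper68.C3
open Pool.Agent.Helper68.C3.Fin3
open Pool.Agent.R431.W (ptsA ShaTrivial euler globE sha_iff)
open Pool.Agent.Helper68.C4.Surf

section
variable {K : Type} [Field K] [NumberField K]

lemma lat_iff (D : K) (σ : K →+* ℂ) (Λ : PeriodPair) :
    IsPeriodLattice (ED D) σ Λ ↔ Λ.g₂ = 0 ∧ Λ.g₃ = -(σ D) ^ 2 := by
  have h4 : (ED D).c₄ = 0 := by
    unfold ED WeierstrassCurve.c₄ WeierstrassCurve.b₂ WeierstrassCurve.b₄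
    ring
  have h6 : (ED D).c₆ = -216 * D ^ 2 := by
    unfold ED WeierstrassCurve.c₆ WeierstrassCurve.b₂ WeierstrassCurve.b₄ WeierstrassCurve.b₆
    ring
  unfold IsPeriodLattice
  rw [h4, h6, map_zero, zero_div]
  have e : σ (-216 * D ^ 2) / 216 = -(σ D) ^ 2 := by
    rw [map_mul, map_neg, map_ofNat, map_pow]
    ring
  rw [e]

theorem three_iff {D : 𝓞 K} (hL : Law3 D) (hH : HB D) : ThreePart (ED (D : K)) ↔ Tri D := by
  have hcard : Nat.card (ptsA (ED (D : K))) = Nat.card (ED (D : K)).toAffine.Point :=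
    (Nat.card_congr (globE (ED (D : K)))).symm
  constructor
  · rintro ⟨h1, h2, h3, -⟩
    refine ⟨?_, fun n => (sha_iff (ED (D : K)) (3 ^ n)).1 (h3 n)⟩
    have := h1.to_subtype
    exact Finite.of_equiv _ (globE (ED (D : K))).symm
  · intro hT
    have hfin := hT.1
    obtain ⟨ht1, ht2, Lf, c, h1, h2, h3, h4, h5⟩ := hL
    have htop : AddCommGroup.torsion (ED (D : K)).toAffine.Point = ⊤ := by
      rw [eq_top_iff]
      intro P _
      exact isOfFinAddOrder_of_finite P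
    have htc : tors D = Nat.card (ED (D : K)).toAffine.Point := by
      unfold tors
      rw [htop]
      exact Nat.card_congr (Equiv.Set.univ _)
    have hf : (ptsA (ED (D : K))).Finite := by
      have := Finite.of_equiv _ (globE (ED (D : K)))
      exact Set.toFinite _
    refine ⟨hf, ?_, fun n => (sha_iff (ED (D : K)) (3 ^ n)).2 fun x hx => hT.2 n x hx,
      Lf, c, h1, ?_, h3 hT, h4, fun σ => ⟨?_, ?_⟩⟩
    · rw [hcard, ← htc]
      exact ht2
    · intro s hs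
      rw [(h2 s hs).2]
      exact Pool.Agent.R431.W.hasProd_euler (ED (D : K)) hH hs
    · obtain ⟨Λ, g2, g3⟩ := (h5 σ).1
      exact ⟨Λ, (lat_iff (D : K) σ Λ).2 ⟨g2, g3⟩⟩
    · intro Λ hΛ Γ _ v hv
      obtain ⟨g2, g3⟩ := (lat_iff (D : K) σ Λ).1 hΛ
      obtain ⟨ρ, h6, h7⟩ := (h5 σ).2 Λ g2 g3
      have h8 := (h7 Γ v hv).2.2 hT
      have hL1 := h3 hT
      have hs0 : ((Real.sqrt |(discr K : ℝ)| : ℝ) : ℂ) ≠ 0 := by
        rw [Ne, Complex.ofReal_eq_zero, Real.sqrt_eq_zero (abs_nonneg _), abs_eq_zero]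
        exact_mod_cast discr_ne_zero K
      have hN0 : (Nat.card (ED (D : K)).toAffine.Point : ℂ) ≠ 0 := by
        exact_mod_cast Nat.card_pos.ne'
      rw [htc] at h6
      have hA : ((2 * |((starRingEnd ℂ) Λ.ω₁ * Λ.ω₂).im| : ℝ) : ℂ) ≠ 0 := by
        intro h
        apply hL1
        rw [h6, h]
        simp
      have hc0 : ((∏ᶠ w, c w : ℕ) : ℂ) ≠ 0 := by
        intro h
        apply hL1
        rw [h6, h]
        simp
      have e : Lf 1 * (Nat.card (ptsA (ED (D : K))) : ℂ) ^ 2 /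
          ((Vinf K Λ : ℂ) * ((∏ᶠ w, c w : ℕ) : ℂ)) = ρ := by
        rw [hcard, h6]
        have e2 : (Vinf K Λ : ℂ) = ((2 * |((starRingEnd ℂ) Λ.ω₁ * Λ.ω₂).im| : ℝ) : ℂ) /
            ((Real.sqrt |(discr K : ℝ)| : ℝ) : ℂ) := by
          rw [← Complex.ofReal_div]
          rfl
        rw [e2]
        field_simp
      rw [e]
      exact h8

end

lemma tri_cls {K : Type} [Field K] [NumberField K] (j : Ei ≃+* 𝓞 K) {D : Ei}
    (hsq : Squarefree D) {κ : ZMod 3} (h3 : (3 : Ei) ∣ D - w ^ κ.val) :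
    HB (j D) := by
  have hD0 : D ≠ 0 := hsq.ne_zero
  obtain ⟨n, π, e, hdt, rfl⟩ := Pool.Agent.Helper68.C2.Fact2.ge4 D κ h3
    ⟨hD0, fun x hx => hsq x (dvd_trans ⟨x, by ring⟩ hx)⟩
  exact hb2 j hdt

/-- the law and the bounds for the family -/
lemma fam_law (K : Type) [Field K] [NumberField K] [IsCyclotomicExtension {3} ℚ K] {D : 𝓞 K}
    (hD : Fam D) : ThreePart (ED (D : K)) ↔ Tri D := by
  obtain ⟨⟨j, hj⟩, -⟩ := Pool.Agent.Y455.CTK.jex K
  obtain ⟨D, rfl⟩ := j.surjective D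
  have hsq : Squarefree D := by
    intro x hx
    exact (MulEquiv.isUnit_map j).1 (hD.1 (j x) (by rw [← map_mul]; exact map_dvd j hx))
  rcases (fam_iff (j D)).1 hD with h | h
  · obtain ⟨κ, -, h3, -⟩ := (cls_iff j D).1 h
    exact three_iff (law_cls K h) (tri_cls j hsq h3)
  · have h3 := ((clsK_iff j hj D).1 h).1.1
    refine three_iff ((Pool.Agent.Y696.CTK.final K).2.1 (j D) h).1
      (tri_cls j hsq (κ := 0) ?_)
    have e0 : (w : Ei) ^ (0 : ZMod 3).val = 1 := by decide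
    rwa [e0]

/-- **The final statement.** -/
theorem final (K : Type) [Field K] [NumberField K] [IsCyclotomicExtension {3} ℚ K] :
    (∃ c : ℝ, 0 < c ∧ ∃ X₀ : ℕ, ∀ X : ℕ, X₀ ≤ X →
      c * X ≤ ({D : 𝓞 K | Algebra.norm ℤ D ≤ X ∧ Fam D}.ncard : ℝ)) ∧
    Filter.Tendsto (fun X : ℕ =>
      ({D : 𝓞 K | Algebra.norm ℤ D ≤ X ∧ Fam D ∧ ThreePart (ED (D : K))}.ncard : ℝ) /
        ({D : 𝓞 K | Algebra.norm ℤ D ≤ X ∧ Fam D}.ncard : ℝ)) Filter.atTop
      (nhds (∏' i : ℕ, (1 - (1 / 3 : ℝ) ^ (2 * i + 1)))) ∧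
    (0.639 : ℝ) < ∏' i : ℕ, (1 - (1 / 3 : ℝ) ^ (2 * i + 1)) ∧
    ∏' i : ℕ, (1 - (1 / 3 : ℝ) ^ (2 * i + 1)) < 0.6391 := by
  obtain ⟨⟨j, hj⟩, -⟩ := Pool.Agent.Y455.CTK.jex K
  have hc9 := Pool.Agent.Y703.XL.t_C9
  obtain ⟨hA, hB, -, -⟩ := Pool.Agent.Helper68.C3.Fin3.final2 K
  have eT : ∀ X : ℕ, {D : 𝓞 K | Algebra.norm ℤ D ≤ X ∧ Fam D}.ncard =
      {D : 𝓞 K | Algebra.norm ℤ D ≤ X ∧ ClsQ D}.ncard + (Pool.Agent.Y703.XK.SS X).card := by
    intro X
    have h1 := countF j hj X (fun _ => True)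
    have h2 := countK j hj X (fun _ => True)
    rw [Finset.filter_true] at h2
    rw [h2] at h1
    simp only [and_true] at h1
    exact h1
  have eG : ∀ X : ℕ, {D : 𝓞 K | Algebra.norm ℤ D ≤ X ∧ Fam D ∧ ThreePart (ED (D : K))}.ncard =
      {D : 𝓞 K | Algebra.norm ℤ D ≤ X ∧ ClsQ D ∧ Part3 D}.ncard +
      ((Pool.Agent.Y703.XK.SS X).filter Pool.Agent.Y703.XK.Gd).card := by
    intro X
    have e0 : {D : 𝓞 K | Algebra.norm ℤ D ≤ X ∧ Fam D ∧ ThreePart (ED (D : K))} =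
        {D : 𝓞 K | Algebra.norm ℤ D ≤ X ∧ Fam D ∧ Tri D} := by
      ext D
      show _ ∧ _ ∧ _ ↔ _ ∧ _ ∧ _
      exact and_congr_right fun _ => and_congr_right fun hD => fam_law K hD
    have e1 : {D : 𝓞 K | Algebra.norm ℤ D ≤ X ∧ ClsQ D ∧ Part3 D} =
        {D : 𝓞 K | Algebra.norm ℤ D ≤ X ∧ ClsQ D ∧ Tri D} := by
      ext D
      show _ ∧ _ ∧ _ ↔ _ ∧ _ ∧ _
      exact and_congr_right fun _ => and_congr_right fun hD => part3_iff (law_cls K hD)
    rw [e0, e1, countF j hj X Tri, countK j hj X Tri]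
    congr 1
    refine congrArg Finset.card (Finset.filter_congr fun S hS => ?_)
    have hS' := (mem_b X S).1 hS
    exact tri_gd j hS'.2.1.1 hS'.2.1.2
  refine ⟨?_, ?_, hc9.2.2.2.1, hc9.2.2.2.2⟩
  · obtain ⟨c, hc, X₀, h⟩ := hA
    refine ⟨c, hc, X₀, fun X hX => (h X hX).trans ?_⟩
    rw [eT]
    push_cast
    have : (0 : ℝ) ≤ ((Pool.Agent.Y703.XK.SS X).card : ℝ) := Nat.cast_nonneg _
    linarith
  · have h1 := mix (G₁ := fun X => {D : 𝓞 K | Algebra.norm ℤ D ≤ X ∧ ClsQ D ∧ Part3 D}.ncard)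
      (T₁ := fun X => {D : 𝓞 K | Algebra.norm ℤ D ≤ X ∧ ClsQ D}.ncard)
      (G₂ := fun X => ((Pool.Agent.Y703.XK.SS X).filter Pool.Agent.Y703.XK.Gd).card)
      (T₂ := fun X => (Pool.Agent.Y703.XK.SS X).card)
      (fun X => Set.ncard_le_ncard (fun D hD => ⟨hD.1, hD.2.1⟩)
        ((fin_fam j X hj).subset fun D h => h.1))
      (fun X => Finset.card_filter_le _ _) hB Pool.Agent.XLK.t_DQ_all ?_
    · refine h1.congr fun X => ?_
      rw [eT, eG]
    · obtain ⟨c, hc, X₀, h⟩ := hA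
      filter_upwards [eventually_ge_atTop (max X₀ 1)] with X hX
      have h2 := h X ((le_max_left _ _).trans hX)
      have h3 : (1 : ℝ) ≤ X := by exact_mod_cast (le_max_right _ _).trans hX
      have h4 : (0 : ℝ) < ({D : 𝓞 K | Algebra.norm ℤ D ≤ X ∧ ClsQ D}.ncard : ℝ) :=
        lt_of_lt_of_le (by positivity) h2
      exact_mod_cast h4

end Pool.Agent.Helper68.C4.Surf2
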